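import Mathlib.Analysis.Convex.Hull
import Mathlib.Data.Set.Card
import Mathlib.Data.Real.Basic
import Mathlib.Data.Fin.VecNotation
import Mathlib.Data.Int.Interval
import Mathlib.Order.Interval.Finset.Basic
import Mathlib.Tactic.Linarith
import Mathlib.Tactic.LinearCombination
import Mathlib.Tactic.Ring
import Mathlib.Tactic.NormNum
import Mathlib.Tactic.Positivity

/-!
# Seven lattice points whose discrete point X-rays do not determine convex lattice sets

The fourteen points `V 0, …, V 13` are the vertices of a convex polygon and lie on a real plane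
cubic curve; the seven points `P 0, …, P 6` are the rational 7-torsion subgroup of that curve (after
a projective transformation).  From each `P k` the even and the odd vertices are seen on the same
lines.
-/

namespace Pool.Agent.Q235.Xray

/-- A lattice point as a point of the real plane. -/
def toR (z : ℤ × ℤ) : ℝ × ℝ := (z.1, z.2)

/-- `F` is a convex lattice set: finite, and containing every lattice point of its convex hull. -/
def IsConvexLattice (F : Set (ℤ × ℤ)) : Prop :=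
  F.Finite ∧ ∀ z : ℤ × ℤ, toR z ∈ convexHull ℝ (toR '' F) → z ∈ F

/-- `F` is disjoint from every line through two distinct points of `P`. -/
def Avoids (P : Set (ℤ × ℤ)) (F : Set (ℤ × ℤ)) : Prop :=
  ∀ p ∈ P, ∀ q ∈ P, p ≠ q → ∀ z ∈ F,
    (q.1 - p.1) * (z.2 - p.2) - (q.2 - p.2) * (z.1 - p.1) ≠ 0

/-- The discrete point X-ray of `F` at `p`, evaluated at the line
`{x | a (x₁ - p₁) + b (x₂ - p₂) = 0}` through `p`. -/
noncomputable def xray (F : Set (ℤ × ℤ)) (p : ℤ × ℤ) (a b : ℝ) : ℕ :=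
  {z ∈ F | a * ((z.1 : ℝ) - p.1) + b * ((z.2 : ℝ) - p.2) = 0}.ncard

/-- Discrete point X-rays at `P` determine convex lattice sets. -/
def Determine (P : Set (ℤ × ℤ)) : Prop :=
  ∀ F₁ F₂ : Set (ℤ × ℤ), IsConvexLattice F₁ → IsConvexLattice F₂ → Avoids P F₁ → Avoids P F₂ →
    (∀ p ∈ P, ∀ a b : ℝ, (a ≠ 0 ∨ b ≠ 0) → xray F₁ p a b = xray F₂ p a b) → F₁ = F₂

/-- integer orientation determinant -/
def idet (p q r : ℤ × ℤ) : ℤ := (q.1 - p.1) * (r.2 - p.2) - (q.2 - p.2) * (r.1 - p.1)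

/-- The fourteen vertices, in cyclic order. -/
def V : Fin 14 → ℤ × ℤ := ![(-23063040, 9225216), (-16144128, 4036032), (-8648640, 1945944),
  (-3144960, 707616), (-2483712, 620928), (-1647360, 658944), (-1467648, 733824),
  (-1153152, 1009008), (-1081080, 1126125), (-1064448, 1419264), (-1153152, 1537536),
  (-1921920, 2002000), (-2690688, 2354352), (-10762752, 5381376)]

/-- The seven points. -/
def Q : Fin 7 → ℤ × ℤ := ![(0, 0), (0, 2018016), (1153152, 144144), (-4612608, -4612608),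
  (768768, 768768), (-1153152, -144144), (0, 1345344)]

/-- the matching seen from the `k`-th point -/
def mt (k : Fin 7) (s : Fin 14) : Fin 14 := ⟨(5 + 8 * k.val + (14 - s.val)) % 14, by omega⟩

theorem coll : ∀ k s, idet (Q k) (V s) (V (mt k s)) = 0 := by decide +kernel

theorem mt_mt : ∀ k s, mt k (mt k s) = s := by decide +kernel

theorem mt_par : ∀ k s, (mt k s).val % 2 = 1 ↔ s.val % 2 = 0 := by decide +kernel

theorem V_ne : ∀ k s, V s ≠ Q k := by decide +kernel

theorem V_inj : ∀ s t, V s = V t → s = t := by decide +kernel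

theorem Q_inj : ∀ s t, Q s = Q t → s = t := by decide +kernel

/-- support functional at the vertex `t` -/
def phi (t : Fin 14) (z : ℤ × ℤ) : ℤ := idet (V (t - 1)) (V t) z + idet (V t) (V (t + 1)) z

theorem phi_self : ∀ t, phi t (V t) = 0 := by decide +kernel

theorem phi_pos : ∀ t s, s ≠ t → 0 < phi t (V s) := by decide +kernel

theorem side : ∀ k l, k ≠ l →
    (∀ s, 0 < idet (Q k) (Q l) (V s)) ∨ (∀ s, idet (Q k) (Q l) (V s) < 0) := by decide +kernel

theorem V_box : ∀ s, -30000000 ≤ (V s).1 ∧ (V s).1 ≤ 30000000 ∧ -30000000 ≤ (V s).2 ∧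
    (V s).2 ≤ 30000000 := by decide +kernel

/-- real version of `idet` -/
def detR (p q : ℤ × ℤ) (x : ℝ × ℝ) : ℝ :=
  ((q.1 : ℝ) - p.1) * (x.2 - p.2) - ((q.2 : ℝ) - p.2) * (x.1 - p.1)

theorem detR_toR (p q z : ℤ × ℤ) : detR p q (toR z) = ((idet p q z : ℤ) : ℝ) := by
  unfold detR toR idet
  push_cast
  ring

theorem detR_affine (p q : ℤ × ℤ) (x y : ℝ × ℝ) (a b : ℝ) (hab : a + b = 1) :
    detR p q (a • x + b • y) = a * detR p q x + b * detR p q y := by
  have hb : b = 1 - a := by linarith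
  subst hb
  unfold detR
  simp only [Prod.fst_add, Prod.snd_add, Prod.smul_fst, Prod.smul_snd, smul_eq_mul]
  ring

/-- The polygon. -/
def hull : Set (ℝ × ℝ) := convexHull ℝ (Set.range fun s => toR (V s))

theorem V_mem_hull (s : Fin 14) : toR (V s) ∈ hull := subset_convexHull ℝ _ ⟨s, rfl⟩

theorem toR_inj {z w : ℤ × ℤ} (h : toR z = toR w) : z = w := by
  have h1 : (z.1 : ℝ) = w.1 := congrArg Prod.fst h
  have h2 : (z.2 : ℝ) = w.2 := congrArg Prod.snd h
  exact Prod.ext (by exact_mod_cast h1) (by exact_mod_cast h2)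

theorem hull_box {x : ℝ × ℝ} (hx : x ∈ hull) :
    (-30000000 ≤ x.1 ∧ x.1 ≤ 30000000) ∧ -30000000 ≤ x.2 ∧ x.2 ≤ 30000000 := by
  have hc : Convex ℝ {x : ℝ × ℝ | (-30000000 ≤ x.1 ∧ x.1 ≤ 30000000) ∧ -30000000 ≤ x.2 ∧
      x.2 ≤ 30000000} := by
    rintro x ⟨⟨h1, h2⟩, h3, h4⟩ y ⟨⟨k1, k2⟩, k3, k4⟩ a b ha hb hab
    have hb' : b = 1 - a := by linarith
    subst hb'
    refine ⟨⟨?_, ?_⟩, ?_, ?_⟩ <;>
      simp only [Prod.fst_add, Prod.snd_add, Prod.smul_fst, Prod.smul_snd, smul_eq_mul] <;>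
      nlinarith
  refine convexHull_min ?_ hc hx
  rintro _ ⟨s, rfl⟩
  obtain ⟨h1, h2, h3, h4⟩ := V_box s
  have k1 : ((-30000000 : ℤ) : ℝ) ≤ ((V s).1 : ℝ) := Int.cast_le.2 h1
  have k2 : ((V s).1 : ℝ) ≤ ((30000000 : ℤ) : ℝ) := Int.cast_le.2 h2
  have k3 : ((-30000000 : ℤ) : ℝ) ≤ ((V s).2 : ℝ) := Int.cast_le.2 h3
  have k4 : ((V s).2 : ℝ) ≤ ((30000000 : ℤ) : ℝ) := Int.cast_le.2 h4
  push_cast at k1 k2 k3 k4
  exact ⟨⟨k1, k2⟩, k3, k4⟩

/-- real version of `phi` -/
def phiR (t : Fin 14) (x : ℝ × ℝ) : ℝ := detR (V (t - 1)) (V t) x + detR (V t) (V (t + 1)) x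

theorem phiR_toR (t : Fin 14) (z : ℤ × ℤ) : phiR t (toR z) = ((phi t z : ℤ) : ℝ) := by
  unfold phiR phi
  rw [detR_toR, detR_toR]
  push_cast
  ring

theorem phiR_affine (t : Fin 14) (x y : ℝ × ℝ) (a b : ℝ) (hab : a + b = 1) :
    phiR t (a • x + b • y) = a * phiR t x + b * phiR t y := by
  unfold phiR
  rw [detR_affine _ _ _ _ _ _ hab, detR_affine _ _ _ _ _ _ hab]
  ring

theorem convex_phi (t : Fin 14) : Convex ℝ {x : ℝ × ℝ | 0 < phiR t x} := by
  intro x hx y hy a b ha hb hab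
  have hx' : 0 < phiR t x := hx
  have hy' : 0 < phiR t y := hy
  change 0 < phiR t (a • x + b • y)
  rw [phiR_affine _ _ _ _ _ hab]
  rcases ha.eq_or_lt with h | h
  · have : b = 1 := by linarith
    rw [← h, this]; linarith
  · have := mul_pos h hx'
    have := mul_nonneg hb hy'.le
    linarith

/-- Every point of the polygon other than the vertex `V t` is strictly inside. -/
theorem hull_phi (t : Fin 14) {x : ℝ × ℝ} (hx : x ∈ hull) : 0 < phiR t x ∨ x = toR (V t) := by
  have hc : Convex ℝ {x : ℝ × ℝ | 0 < phiR t x ∨ x = toR (V t)} := by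
    intro x hx y hy a b ha hb hab
    have h0 : phiR t (toR (V t)) = 0 := by
      rw [phiR_toR, phi_self]; simp
    rcases hx with hx | hx <;> rcases hy with hy | hy
    · exact Or.inl (convex_phi t hx hy ha hb hab)
    · rcases ha.eq_or_lt with h | h
      · right
        have : b = 1 := by linarith
        rw [← h, this, zero_smul, one_smul, zero_add, hy]
      · left
        rw [phiR_affine _ _ _ _ _ hab, hy, h0, mul_zero, add_zero]
        exact mul_pos h hx
    · rcases hb.eq_or_lt with h | h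
      · right
        have : a = 1 := by linarith
        rw [← h, this, zero_smul, one_smul, add_zero, hx]
      · left
        rw [phiR_affine _ _ _ _ _ hab, hx, h0, mul_zero, zero_add]
        exact mul_pos h hy
    · right
      rw [hx, hy, ← add_smul, hab, one_smul]
  refine convexHull_min ?_ hc hx
  rintro _ ⟨s, rfl⟩
  by_cases h : s = t
  · right; rw [h]
  · left
    rw [phiR_toR]
    exact_mod_cast phi_pos t s h

/-- all lattice points of the polygon except the vertices of parity `r` -/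
def F (r : ℕ) : Set (ℤ × ℤ) := {z | toR z ∈ hull ∧ ∀ s : Fin 14, s.val % 2 = r → z ≠ V s}

theorem F_lattice (r : ℕ) : IsConvexLattice (F r) := by
  refine ⟨?_, ?_⟩
  · refine Set.Finite.subset (Set.finite_Icc ((-30000000, -30000000) : ℤ × ℤ)
      (30000000, 30000000)) ?_
    rintro z ⟨hz, -⟩
    obtain ⟨⟨h1, h2⟩, h3, h4⟩ := hull_box hz
    unfold toR at h1 h2 h3 h4
    simp only at h1 h2 h3 h4
    refine ⟨⟨?_, ?_⟩, ?_, ?_⟩
    · exact_mod_cast h1
    · exact_mod_cast h3
    · exact_mod_cast h2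
    · exact_mod_cast h4
  · intro z hz
    have hsub : toR '' F r ⊆ hull := by
      rintro _ ⟨w, hw, rfl⟩
      exact hw.1
    refine ⟨convexHull_min hsub (convex_convexHull ℝ _) hz, ?_⟩
    rintro s hs rfl
    have h1 : toR '' F r ⊆ {x : ℝ × ℝ | 0 < phiR s x} := by
      rintro _ ⟨w, hw, rfl⟩
      rcases hull_phi s hw.1 with h | h
      · exact h
      · exact absurd (toR_inj h) (hw.2 s hs)
    have h2 : 0 < phiR s (toR (V s)) := convexHull_min h1 (convex_phi s) hz
    rw [phiR_toR, phi_self] at h2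
    simp at h2

theorem F_avoids (r : ℕ) : Avoids (Set.range Q) (F r) := by
  rintro _ ⟨k, rfl⟩ _ ⟨l, rfl⟩ hkl z hz
  have hkl' : k ≠ l := fun h => hkl (by rw [h])
  change idet (Q k) (Q l) z ≠ 0
  rcases side k l hkl' with h | h
  · have hc : Convex ℝ {x : ℝ × ℝ | 0 < detR (Q k) (Q l) x} := by
      intro x hx y hy a b ha hb hab
      have hx' : 0 < detR (Q k) (Q l) x := hx
      have hy' : 0 < detR (Q k) (Q l) y := hy
      change 0 < detR (Q k) (Q l) (a • x + b • y)
      rw [detR_affine _ _ _ _ _ _ hab]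
      rcases ha.eq_or_lt with h | h
      · have : b = 1 := by linarith
        rw [← h, this]; linarith
      · have := mul_pos h hx'
        have := mul_nonneg hb hy'.le
        linarith
    have h1 : 0 < detR (Q k) (Q l) (toR z) := by
      refine convexHull_min ?_ hc hz.1
      rintro _ ⟨s, rfl⟩
      change 0 < detR (Q k) (Q l) (toR (V s))
      rw [detR_toR]
      exact_mod_cast h s
    rw [detR_toR] at h1
    have h2 : 0 < idet (Q k) (Q l) z := by exact_mod_cast h1
    exact h2.ne'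
  · have hc : Convex ℝ {x : ℝ × ℝ | detR (Q k) (Q l) x < 0} := by
      intro x hx y hy a b ha hb hab
      have hx' : detR (Q k) (Q l) x < 0 := hx
      have hy' : detR (Q k) (Q l) y < 0 := hy
      change detR (Q k) (Q l) (a • x + b • y) < 0
      rw [detR_affine _ _ _ _ _ _ hab]
      rcases ha.eq_or_lt with h | h
      · have : b = 1 := by linarith
        rw [← h, this]; linarith
      · have := mul_neg_of_pos_of_neg h hx'
        have := mul_nonpos_of_nonneg_of_nonpos hb hy'.le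
        linarith
    have h1 : detR (Q k) (Q l) (toR z) < 0 := by
      refine convexHull_min ?_ hc hz.1
      rintro _ ⟨s, rfl⟩
      change detR (Q k) (Q l) (toR (V s)) < 0
      rw [detR_toR]
      exact_mod_cast h s
    rw [detR_toR] at h1
    have h2 : idet (Q k) (Q l) z < 0 := by exact_mod_cast h1
    exact h2.ne

/-- the points on a line through `p` -/
def onl (p : ℤ × ℤ) (a b : ℝ) (z : ℤ × ℤ) : Prop :=
  a * ((z.1 : ℝ) - p.1) + b * ((z.2 : ℝ) - p.2) = 0

theorem onl_of (k : Fin 7) (a b : ℝ) (s : Fin 14) (h : onl (Q k) a b (V s)) :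
    onl (Q k) a b (V (mt k s)) := by
  unfold onl at *
  set p := Q k with hp
  set u := V s with hu
  set v := V (mt k s) with hv
  have hc : ((u.1 : ℝ) - p.1) * ((v.2 : ℝ) - p.2) - ((u.2 : ℝ) - p.2) * ((v.1 : ℝ) - p.1) = 0 := by
    have := coll k s
    unfold idet at this
    rw [← hp, ← hu, ← hv] at this
    exact_mod_cast this
  have hne : u ≠ p := V_ne k s
  by_cases h1 : ((u.1 : ℝ) - p.1) = 0
  · have h2 : ((u.2 : ℝ) - p.2) ≠ 0 := by
      intro h2
      apply hne
      have e1 : (u.1 : ℝ) = p.1 := by linarith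
      have e2 : (u.2 : ℝ) = p.2 := by linarith
      exact Prod.ext (by exact_mod_cast e1) (by exact_mod_cast e2)
    have h3 : ((u.2 : ℝ) - p.2) * (a * ((v.1 : ℝ) - p.1) + b * ((v.2 : ℝ) - p.2)) = 0 := by
      linear_combination ((v.2 : ℝ) - p.2) * h - a * hc
    exact (mul_eq_zero.1 h3).resolve_left h2
  · have h3 : ((u.1 : ℝ) - p.1) * (a * ((v.1 : ℝ) - p.1) + b * ((v.2 : ℝ) - p.2)) = 0 := by
      linear_combination ((v.1 : ℝ) - p.1) * h + b * hc
    exact (mul_eq_zero.1 h3).resolve_left h1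

theorem F_decomp (r : ℕ) (p : ℤ × ℤ) (a b : ℝ) :
    {z ∈ F r | a * ((z.1 : ℝ) - p.1) + b * ((z.2 : ℝ) - p.2) = 0} =
      {z | (toR z ∈ hull ∧ ∀ s, z ≠ V s) ∧ onl p a b z} ∪
      V '' {s | s.val % 2 ≠ r ∧ onl p a b (V s)} := by
  ext z
  constructor
  · rintro ⟨⟨h1, h2⟩, h3⟩
    by_cases h : ∃ s, z = V s
    · obtain ⟨s, rfl⟩ := h
      right
      exact ⟨s, ⟨fun h => h2 s h rfl, h3⟩, rfl⟩
    · left
      push Not at h
      exact ⟨⟨h1, h⟩, h3⟩
  · rintro (⟨⟨h1, h2⟩, h3⟩ | ⟨s, ⟨h1, h2⟩, rfl⟩)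
    · exact ⟨⟨h1, fun s _ => h2 s⟩, h3⟩
    · refine ⟨⟨V_mem_hull s, fun t ht hst => h1 ?_⟩, h2⟩
      rw [V_inj _ _ hst]
      exact ht

theorem F_ncard (r : ℕ) (p : ℤ × ℤ) (a b : ℝ) :
    xray (F r) p a b = {z | (toR z ∈ hull ∧ ∀ s, z ≠ V s) ∧ onl p a b z}.ncard +
      {s : Fin 14 | s.val % 2 ≠ r ∧ onl p a b (V s)}.ncard := by
  unfold xray
  have hfin := (F_lattice r).1
  have hfin2 : {z ∈ F r | a * ((z.1 : ℝ) - p.1) + b * ((z.2 : ℝ) - p.2) = 0}.Finite :=
    hfin.subset (fun z hz => hz.1)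
  have hd := F_decomp r p a b
  rw [hd] at hfin2 ⊢
  rw [Set.ncard_union_eq ?_ (hfin2.subset Set.subset_union_left)
    (hfin2.subset Set.subset_union_right), Set.ncard_image_of_injective _ (fun s t h => V_inj s t h)]
  rw [Set.disjoint_left]
  rintro z ⟨⟨h1, h2⟩, h3⟩ ⟨s, -, rfl⟩
  exact h2 s rfl

theorem same_xray (k : Fin 7) (a b : ℝ) : xray (F 1) (Q k) a b = xray (F 0) (Q k) a b := by
  rw [F_ncard, F_ncard]
  congr 1
  have h : {s : Fin 14 | s.val % 2 ≠ 1 ∧ onl (Q k) a b (V s)} =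
      mt k '' {s : Fin 14 | s.val % 2 ≠ 0 ∧ onl (Q k) a b (V s)} := by
    ext s
    constructor
    · rintro ⟨h1, h2⟩
      refine ⟨mt k s, ⟨?_, onl_of k a b s h2⟩, mt_mt k s⟩
      have := (mt_par k s).2 (by omega)
      omega
    · rintro ⟨t, ⟨h1, h2⟩, rfl⟩
      refine ⟨?_, onl_of k a b t h2⟩
      intro h3
      exact h1 ((mt_par k t).1 h3)
  rw [h, Set.ncard_image_of_injective]
  intro s t hst
  rw [← mt_mt k s, ← mt_mt k t, hst]

theorem not_determine : ¬ Determine (Set.range Q) := by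
  intro h
  have h1 := h (F 1) (F 0) (F_lattice 1) (F_lattice 0) (F_avoids 1) (F_avoids 0) (by
    rintro _ ⟨k, rfl⟩ a b -
    exact same_xray k a b)
  have h2 : V 0 ∈ F 1 := ⟨V_mem_hull 0, fun s hs h0 => by
    have := V_inj _ _ h0
    rw [← this] at hs
    simp at hs⟩
  rw [h1] at h2
  exact h2.2 0 rfl rfl

end Pool.Agent.Q235.Xray
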